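import Mathlib
import Pool.Agent.H788Z.Geo.NoAsym
import Pool.Agent.H788Z.Geo.Defs

set_option autoImplicit false

namespace Pool.Agent.Results.MP_a96c68_gt.RayInfiniteLimitSet

open Pool.Agent.H788Z.Geo in
/-- A smooth Riemannian metric on the unit sphere and an injective unit-speed geodesic ray whose
distance to a nonempty closed set of finite length (1-dimensional Hausdorff measure), in particular
to the image of any closed geodesic, simple or not, never tends to zero. -/
theorem result :
    ∃ G : Field3, IsSmooth G ∧ IsSymm G ∧ IsPos G ∧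
      ∃ c : ℝ → E3, IsRay G c ∧ Set.InjOn c (Set.Ici 0) ∧
        ∀ Γ : Set E3, IsClosed Γ → Γ.Nonempty →
          MeasureTheory.Measure.hausdorffMeasure 1 Γ ≠ ⊤ →
          ¬ Filter.Tendsto (fun t => Metric.infDist (c t) Γ) Filter.atTop (nhds 0) := by
  obtain ⟨G, hG, hsym, hpos, hGf⟩ := metric
  obtain ⟨m, hm, hmG⟩ := exists_lower hG.continuous hpos
  refine ⟨G, hG, hsym, hpos, fun t => cc (t + tau 0),
    ⟨fun t => mem_sphere_zero_iff_norm.2 (cc_norm _), ?_⟩, ?_, ?_⟩
  · intro t h1
    obtain ⟨ε, hε, h⟩ := cc_geo hG.continuous hm hmG hGf (t := t + tau 0) (by linarith)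
    refine ⟨ε, hε, fun s₁ s₂ h2 a1 a2 a3 => ?_⟩
    have := h (s₁ + tau 0) (s₂ + tau 0) (by linarith) (by linarith) (by linarith) (by linarith)
    rw [add_sub_add_right_eq_sub] at this
    exact this
  · intro s hs s' hs' e
    have h1 : (0:ℝ) ≤ s := hs
    have h2 : (0:ℝ) ≤ s' := hs'
    have := cc_inj (by linarith) (by linarith) e
    linarith
  · intro Γ hcl hne hfin hlim
    apply not_asymp hcl hne hfin
    have := hlim.comp (Filter.tendsto_atTop_add_const_right Filter.atTop
      (-tau 0) Filter.tendsto_id)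
    simpa [Function.comp_def] using this

end Pool.Agent.Results.MP_a96c68_gt.RayInfiniteLimitSet
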